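import Pool.Agent.H72.KJ.Stmts

/-!
# LEMMA J, rows SUB, TCB, J3P: suprema on cubes and Taylor coefficients
-/

set_option autoImplicit false

namespace Pool.KJ

open Finset Real MvPolynomial
open Pool.KAL Pool.KST Pool.KS3

namespace J54

variable {n : ℕ}

theorem near_of_cube₂ {a : Fin n → ℝ} {s : ℝ} {y y' : Fin n → ℝ} (hy : y ∈ cube a s)
    (hy' : y' ∈ cube a s) (i : Fin n) : |y' i - y i| ≤ s := by
  have h := hy i
  have h' := hy' i
  rw [abs_le]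
  constructor <;> linarith [h.1, h.2, h'.1, h'.2]

theorem cs_nonneg (a : Fin n → ℝ) (s : ℝ) (R : MvPolynomial (Fin n) ℝ) : 0 ≤ cs a s R := by
  unfold cs
  refine Real.sSup_nonneg ?_
  rintro _ ⟨y, _, rfl⟩
  exact abs_nonneg _

theorem cs_le {a : Fin n → ℝ} {s : ℝ} (R : MvPolynomial (Fin n) ℝ) {B : ℝ} (hB : 0 ≤ B)
    (h : ∀ y ∈ cube a s, |eval y R| ≤ B) : cs a s R ≤ B := by
  unfold cs
  refine Real.sSup_le ?_ hB
  rintro _ ⟨y, hy, rfl⟩
  exact h y hy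

/-- The supremum on the cube is at most the jet size at any point of the cube. -/
theorem cs_le_Psi {a : Fin n → ℝ} {s : ℝ} (hs : 0 ≤ s) (R : MvPolynomial (Fin n) ℝ)
    {y : Fin n → ℝ} (hy : y ∈ cube a s) : cs a s R ≤ Psi R s y :=
  cs_le R (Psi_nonneg _ _ _) fun y' hy' =>
    abs_eval_le_Psi_of_near R s hs y y' (fun i => near_of_cube₂ hy hy' i)

theorem abs_le_cs {a : Fin n → ℝ} {s : ℝ} (hs : 0 ≤ s) (R : MvPolynomial (Fin n) ℝ)
    {y : Fin n → ℝ} (hy : y ∈ cube a s) : |eval y R| ≤ cs a s R := by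
  unfold cs
  refine le_csSup ⟨Psi R s y, ?_⟩ ⟨y, hy, rfl⟩
  rintro _ ⟨y', hy', rfl⟩
  exact abs_eval_le_Psi_of_near R s hs y y' (fun i => near_of_cube₂ hy hy' i)

theorem cs_mono {a a' : Fin n → ℝ} {s s' : ℝ} (hs : 0 ≤ s) (h : cube a' s' ⊆ cube a s)
    (R : MvPolynomial (Fin n) ℝ) : cs a' s' R ≤ cs a s R :=
  cs_le R (cs_nonneg _ _ _) fun _ hy => abs_le_cs hs R (h hy)

/-- The jet size at any point of the cube is at most a constant times the supremum. -/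
theorem exists_Psi_le_cs (n k : ℕ) : ∃ K : ℝ, 1 ≤ K ∧ ∀ (R : MvPolynomial (Fin n) ℝ)
    (a : Fin n → ℝ) (s : ℝ) (y : Fin n → ℝ), R.totalDegree ≤ k → 0 < s → y ∈ cube a s →
    Psi R s y ≤ K * cs a s R := by
  obtain ⟨K, hK1, hK⟩ := exists_Psi_le_sup (Fin n) k
  refine ⟨2 ^ k * (2 ^ k * K), ?_, ?_⟩
  · have h2 : (1 : ℝ) ≤ 2 ^ k := one_le_pow₀ (by norm_num)
    have h3 : (1 : ℝ) ≤ 2 ^ k * K := by nlinarith
    nlinarith
  · intro R a s y hR hs hy
    obtain ⟨z, hz⟩ : ∃ z : Fin n → ℝ, z = fun i => a i + s / 2 := ⟨_, rfl⟩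
    have h1 : Psi R (s / 2) z ≤ K * cs a s R := by
      refine hK R (s / 2) z (cs a s R) hR (by linarith) ?_
      intro y' hy'
      refine abs_le_cs hs.le R ?_
      intro i
      have := hy' i
      rw [hz, abs_le] at this
      simp only [] at this
      constructor <;> linarith [this.1, this.2]
    have h2 : Psi R (s / 2) y ≤ 2 ^ k * Psi R (s / 2) z := by
      have h3 := Psi_le_of_dist R (s / 2) 1 (by linarith) zero_le_one z y (by
        intro i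
        have := hy i
        rw [hz, abs_le]
        constructor <;> linarith [this.1, this.2])
      refine h3.trans (mul_le_mul_of_nonneg_right ?_ (Psi_nonneg _ _ _))
      have : (1 : ℝ) + 1 = 2 := by norm_num
      rw [this]
      exact pow_le_pow_right₀ (by norm_num) hR
    have h4 : Psi R s y ≤ 2 ^ k * Psi R (s / 2) y := by
      have h5 := Psi_radius_le R (s / 2) 2 (by norm_num) y
      rw [div_mul_cancel₀ s (by norm_num : (2 : ℝ) ≠ 0)] at h5
      exact h5.trans (mul_le_mul_of_nonneg_right (pow_le_pow_right₀ (by norm_num) hR)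
        (Psi_nonneg _ _ _))
    have hk : (0 : ℝ) ≤ 2 ^ k := by positivity
    calc Psi R s y ≤ 2 ^ k * Psi R (s / 2) y := h4
      _ ≤ 2 ^ k * (2 ^ k * Psi R (s / 2) z) := mul_le_mul_of_nonneg_left h2 hk
      _ ≤ 2 ^ k * (2 ^ k * (K * cs a s R)) :=
        mul_le_mul_of_nonneg_left (mul_le_mul_of_nonneg_left h1 hk) hk
      _ = 2 ^ k * (2 ^ k * K) * cs a s R := by ring

/-! ### Taylor coefficients -/

theorem wgt_const {σ : Type*} (ρ : ℝ) (β : σ →₀ ℕ) : wgt (fun _ => ρ) β = ρ ^ β.degree := by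
  unfold wgt Finsupp.prod
  simp only []
  rw [Finset.prod_pow_eq_pow_sum]
  rfl

theorem coeff_sh {σ : Type*} (P : MvPolynomial σ ℝ) (ρ : ℝ) (x : σ → ℝ) (β : σ →₀ ℕ) :
    coeff β (shA P (fun _ => ρ) x) = ρ ^ β.degree * coeff β (shf P 1 x) := by
  rw [coeff_shA, wgt_const]

/-- The part of order at most `I` of the jet size. -/
noncomputable def low {σ : Type*} (P : MvPolynomial σ ℝ) (ρ : ℝ) (x : σ → ℝ) (I : ℕ) : ℝ :=
  ∑ β ∈ (shf P 1 x).support.filter (fun β => β.degree ≤ I), ρ ^ β.degree *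
    |coeff β (shf P 1 x)|

theorem Psi_eq_sum {σ : Type*} (P : MvPolynomial σ ℝ) (ρ : ℝ) (hρ : 0 ≤ ρ) (x : σ → ℝ) :
    Psi P ρ x = ∑ β ∈ (shf P 1 x).support, ρ ^ β.degree * |coeff β (shf P 1 x)| := by
  have h1 : Psi P ρ x = coefSum (shA P (fun _ => ρ) x) := rfl
  rw [h1, coefSum_eq_of_subset _ (shf P 1 x).support]
  · refine Finset.sum_congr rfl fun β _ => ?_
    rw [coeff_sh, abs_mul, abs_of_nonneg (pow_nonneg hρ _)]
  · intro β hβ
    rw [mem_support_iff, coeff_sh] at hβ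
    rw [mem_support_iff]
    exact right_ne_zero_of_mul hβ

/-- **Low order.** If the jet size decreases slowly from the radius `1` to the radius `ρ₀`, then at
all radii `ρ ≤ ρ₀` one half of the jet size is of order at most `I`. -/
theorem Psi_le_low {σ : Type*} (P : MvPolynomial σ ℝ) (x : σ → ℝ) (I : ℕ) (ρ₀ ρ : ℝ)
    (h0 : 0 < ρ₀) (h1 : ρ₀ ≤ 1) (hρ : 0 ≤ ρ) (hρ0 : ρ ≤ ρ₀)
    (h : ρ₀ ^ (I + 1) * Psi P 1 x ≤ Psi P ρ₀ x / 2) : Psi P ρ x ≤ 2 * low P ρ x I := by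
  classical
  obtain ⟨S, hS⟩ : ∃ S, S = (shf P 1 x).support := ⟨_, rfl⟩
  obtain ⟨c, hc⟩ : ∃ c : (σ →₀ ℕ) → ℝ, c = fun β => |coeff β (shf P 1 x)| := ⟨_, rfl⟩
  have hc0 : ∀ β, 0 ≤ c β := by
    intro β
    rw [hc]
    exact abs_nonneg _
  have e : ∀ r : ℝ, 0 ≤ r → Psi P r x = (∑ β ∈ S.filter (fun β => β.degree ≤ I),
      r ^ β.degree * c β) + ∑ β ∈ S.filter (fun β => ¬ β.degree ≤ I), r ^ β.degree * c β := by
    intro r hr
    rw [Psi_eq_sum P r hr, Finset.sum_filter_add_sum_filter_not, hS, hc]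
  have hlow : ∀ r, low P r x I = ∑ β ∈ S.filter (fun β => β.degree ≤ I), r ^ β.degree * c β := by
    intro r
    rw [hS, hc]
    rfl
  -- the high part at the radius `ρ₀`
  have hh : (∑ β ∈ S.filter (fun β => ¬ β.degree ≤ I), ρ₀ ^ β.degree * c β) ≤ low P ρ₀ x I := by
    have h2 : (∑ β ∈ S.filter (fun β => ¬ β.degree ≤ I), ρ₀ ^ β.degree * c β) ≤
        ρ₀ ^ (I + 1) * Psi P 1 x := by
      rw [e 1 zero_le_one, mul_add, Finset.mul_sum, Finset.mul_sum]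
      have h3 : (0 : ℝ) ≤ ∑ β ∈ S.filter (fun β => β.degree ≤ I),
          ρ₀ ^ (I + 1) * (1 ^ β.degree * c β) :=
        Finset.sum_nonneg fun β _ => mul_nonneg (pow_nonneg h0.le _)
          (mul_nonneg (by rw [one_pow]; exact zero_le_one) (hc0 β))
      have h4 : (∑ β ∈ S.filter (fun β => ¬ β.degree ≤ I), ρ₀ ^ β.degree * c β) ≤
          ∑ β ∈ S.filter (fun β => ¬ β.degree ≤ I), ρ₀ ^ (I + 1) * (1 ^ β.degree * c β) := by
        refine Finset.sum_le_sum fun β hβ => ?_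
        rw [Finset.mem_filter] at hβ
        rw [one_pow, one_mul]
        exact mul_le_mul_of_nonneg_right (pow_le_pow_of_le_one h0.le h1 (by omega)) (hc0 β)
      linarith
    have h5 := e ρ₀ h0.le
    rw [← hlow ρ₀] at h5
    linarith
  -- the high part at the radius `ρ`
  obtain ⟨t, ht⟩ : ∃ t : ℝ, t = ρ / ρ₀ := ⟨_, rfl⟩
  have ht0 : 0 ≤ t := by
    rw [ht]
    positivity
  have ht1 : t ≤ 1 := by
    rw [ht, div_le_one h0]
    exact hρ0
  have hρt : ρ = t * ρ₀ := by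
    rw [ht, div_mul_cancel₀ _ h0.ne']
  have h6 : (∑ β ∈ S.filter (fun β => ¬ β.degree ≤ I), ρ ^ β.degree * c β) ≤
      t ^ I * ∑ β ∈ S.filter (fun β => ¬ β.degree ≤ I), ρ₀ ^ β.degree * c β := by
    rw [Finset.mul_sum]
    refine Finset.sum_le_sum fun β hβ => ?_
    rw [Finset.mem_filter] at hβ
    rw [hρt, mul_pow, mul_assoc]
    exact mul_le_mul_of_nonneg_right (pow_le_pow_of_le_one ht0 ht1 (by omega))
      (mul_nonneg (pow_nonneg h0.le _) (hc0 β))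
  have h7 : t ^ I * low P ρ₀ x I ≤ low P ρ x I := by
    rw [hlow, hlow, Finset.mul_sum]
    refine Finset.sum_le_sum fun β hβ => ?_
    rw [Finset.mem_filter] at hβ
    rw [hρt, mul_pow, mul_assoc]
    exact mul_le_mul_of_nonneg_right (pow_le_pow_of_le_one ht0 ht1 hβ.2)
      (mul_nonneg (pow_nonneg h0.le _) (hc0 β))
  have h8 := mul_le_mul_of_nonneg_left hh (pow_nonneg ht0 I)
  rw [e ρ hρ, ← hlow ρ]
  linarith

/-- The low part is at most the number of terms times the largest. -/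
theorem low_le {σ : Type*} [Finite σ] (P : MvPolynomial σ ℝ) (k : ℕ) (hk : P.totalDegree ≤ k)
    (ρ : ℝ) (hρ : 0 ≤ ρ) (x : σ → ℝ) (I : ℕ) : ∃ β : σ →₀ ℕ, β.degree ≤ I ∧
      low P ρ x I ≤ (expBox σ k).card * |coeff β (shA P (fun _ => ρ) x)| := by
  classical
  obtain ⟨S, hS⟩ : ∃ S, S = (shf P 1 x).support.filter (fun β => β.degree ≤ I) := ⟨_, rfl⟩
  have hcard : (S.card : ℝ) ≤ (expBox σ k).card := by
    have : S ⊆ expBox σ k := by
      rw [hS]
      exact (Finset.filter_subset _ _).trans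
        (support_subset_expBox _ k ((totalDegree_shf_le P 1 x).trans hk))
    exact_mod_cast Finset.card_le_card this
  rcases S.eq_empty_or_nonempty with he | hne
  · refine ⟨0, by simp, ?_⟩
    unfold low
    rw [← hS, he, Finset.sum_empty]
    positivity
  · obtain ⟨β, hβ, hmax⟩ := Finset.exists_max_image S
      (fun β => ρ ^ β.degree * |coeff β (shf P 1 x)|) hne
    have hβ' := hβ
    rw [hS, Finset.mem_filter] at hβ'
    refine ⟨β, hβ'.2, ?_⟩
    have e1 : |coeff β (shA P (fun _ => ρ) x)| = ρ ^ β.degree * |coeff β (shf P 1 x)| := by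
      rw [coeff_sh, abs_mul, abs_of_nonneg (pow_nonneg hρ _)]
    rw [e1]
    have h1 : low P ρ x I ≤ S.card * (ρ ^ β.degree * |coeff β (shf P 1 x)|) := by
      unfold low
      rw [← hS, ← nsmul_eq_mul]
      exact Finset.sum_le_card_nsmul _ _ _ hmax
    exact h1.trans (mul_le_mul_of_nonneg_right hcard
      (mul_nonneg (pow_nonneg hρ _) (abs_nonneg _)))

end J54

open J54

/-- **SUB.** -/
theorem sub_thm : SUBStmt := by
  intro n k
  obtain ⟨K, hK1, hK⟩ := exists_Psi_le_cs n k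
  refine ⟨K, hK1, ?_⟩
  intro h c c' s m hk hs hsub
  have hs' : 0 < s / 2 ^ m := by positivity
  refine ⟨cs_mono hs.le hsub h, ?_⟩
  have hc' : c' ∈ cube c' (s / 2 ^ m) := fun i => ⟨le_rfl, by linarith⟩
  have h1 : cs c s h ≤ Psi h s c' := cs_le_Psi hs.le h (hsub hc')
  have h2 : Psi h s c' ≤ (2 ^ m) ^ k * Psi h (s / 2 ^ m) c' := by
    have h3 := Psi_radius_le h (s / 2 ^ m) (2 ^ m) (one_le_pow₀ (by norm_num)) c'
    rw [div_mul_cancel₀ s (by positivity : (2 : ℝ) ^ m ≠ 0)] at h3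
    refine h3.trans (mul_le_mul_of_nonneg_right ?_ (Psi_nonneg _ _ _))
    exact pow_le_pow_right₀ (one_le_pow₀ (by norm_num)) hk
  have h4 := hK h c' (s / 2 ^ m) c' hk hs' hc'
  have h5 : (0 : ℝ) ≤ (2 ^ m) ^ k := by positivity
  calc cs c s h ≤ (2 ^ m) ^ k * Psi h (s / 2 ^ m) c' := h1.trans h2
    _ ≤ (2 ^ m) ^ k * (K * cs c' (s / 2 ^ m) h) := mul_le_mul_of_nonneg_left h4 h5
    _ = K * 2 ^ (k * m) * cs c' (s / 2 ^ m) h := by rw [← pow_mul, mul_comm m k]; ring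

/-- **TCB.** -/
theorem tcb_thm : TCBStmt := by
  intro n k
  obtain ⟨K, hK1, hK⟩ := exists_Psi_le_cs n k
  refine ⟨K, hK1, ?_⟩
  intro h y b κ β hk hy
  have h1 : |tc b h y β| ≤ Psi h (1 / 2 ^ b) y := abs_coeff_le _ _
  exact h1.trans (hK h _ _ y hk (by positivity) hy)

/-- **J3P.** -/
theorem j3p_thm : J3PStmt := by
  intro n k
  obtain ⟨K, hK1, hK⟩ := exists_Psi_le_cs n k
  obtain ⟨Nb, hNb⟩ : ∃ Nb : ℝ, Nb = (expBox (Fin n) k).card := ⟨_, rfl⟩
  have hNb0 : 0 ≤ Nb := by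
    rw [hNb]
    positivity
  have hlog : 0 ≤ Real.log (2 * K) := Real.log_nonneg (by linarith)
  refine ⟨1 + 2 * Nb + Real.log (2 * K), by linarith, ?_⟩
  intro h y b₁ b I μ κ₁ κ hk hy0 hy1 hy2 hb hμ hI
  obtain ⟨ρ₀, hρ₀⟩ : ∃ ρ₀ : ℝ, ρ₀ = 1 / 2 ^ b₁ := ⟨_, rfl⟩
  obtain ⟨ρ, hρ⟩ : ∃ ρ : ℝ, ρ = 1 / 2 ^ b := ⟨_, rfl⟩
  have h0 : 0 < ρ₀ := by
    rw [hρ₀]
    positivity
  have h1 : ρ₀ ≤ 1 := by
    rw [hρ₀]
    rw [div_le_one (by positivity)]
    exact one_le_pow₀ (by norm_num)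
  have hρ0 : 0 < ρ := by
    rw [hρ]
    positivity
  have hρle : ρ ≤ ρ₀ := by
    rw [hρ, hρ₀]
    exact one_div_le_one_div_of_le (by positivity) (pow_le_pow_right₀ (by norm_num) hb)
  -- slow decrease of the jet size
  have h2 : ρ₀ ^ (I + 1) * Psi h 1 y ≤ Psi h ρ₀ y / 2 := by
    have h3 : Psi h 1 y ≤ K * cs (fun _ => 0) 1 h := hK h _ 1 y hk one_pos hy0
    have h4 : cs (crb b₁ κ₁) (1 / 2 ^ b₁) h ≤ Psi h ρ₀ y := by
      rw [hρ₀]
      exact cs_le_Psi (by positivity) h hy1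
    have h5 : ρ₀ ^ (I + 1) * (K * Real.exp μ) ≤ 1 / 2 := by
      have e1 : ρ₀ = Real.exp (-(b₁ * Real.log 2)) := by
        rw [hρ₀, Real.exp_neg, mul_comm, Real.exp_mul, Real.exp_log (by norm_num),
          Real.rpow_natCast, one_div]
      have e2 : K = Real.exp (Real.log (2 * K)) / 2 := by
        rw [Real.exp_log (by linarith)]
        ring
      have h6 : ρ₀ ^ (I + 1) * (K * Real.exp μ) =
          Real.exp ((I + 1 : ℕ) * (-(b₁ * Real.log 2)) + (Real.log (2 * K) + μ)) / 2 := by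
        rw [Real.exp_add, Real.exp_add, Real.exp_nat_mul, ← e1]
        have e3 : Real.exp (Real.log (2 * K)) = 2 * K := Real.exp_log (by linarith)
        rw [e3]
        ring
      rw [h6]
      have h7 : ((I + 1 : ℕ) : ℝ) * (-(b₁ * Real.log 2)) + (Real.log (2 * K) + μ) ≤ 0 := by
        push_cast
        have h8 : 0 ≤ (b₁ : ℝ) * Real.log 2 := by
          have := Real.log_nonneg (by norm_num : (1 : ℝ) ≤ 2)
          positivity
        nlinarith
      have h9 := Real.exp_le_one_iff.2 h7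
      linarith
    have h10 : 0 ≤ cs (crb b₁ κ₁) (1 / 2 ^ b₁) h := cs_nonneg _ _ _
    have h11 : Psi h 1 y ≤ K * Real.exp μ * cs (crb b₁ κ₁) (1 / 2 ^ b₁) h := by
      refine h3.trans ?_
      have := mul_le_mul_of_nonneg_left hμ (by linarith : (0 : ℝ) ≤ K)
      linarith
    calc ρ₀ ^ (I + 1) * Psi h 1 y
        ≤ ρ₀ ^ (I + 1) * (K * Real.exp μ * cs (crb b₁ κ₁) (1 / 2 ^ b₁) h) :=
          mul_le_mul_of_nonneg_left h11 (pow_nonneg h0.le _)
      _ = ρ₀ ^ (I + 1) * (K * Real.exp μ) * cs (crb b₁ κ₁) (1 / 2 ^ b₁) h := by ring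
      _ ≤ 1 / 2 * cs (crb b₁ κ₁) (1 / 2 ^ b₁) h := mul_le_mul_of_nonneg_right h5 h10
      _ ≤ 1 / 2 * Psi h ρ₀ y := mul_le_mul_of_nonneg_left h4 (by norm_num)
      _ = Psi h ρ₀ y / 2 := by ring
  have h3 := Psi_le_low h y I ρ₀ ρ h0 h1 hρ0.le hρle h2
  obtain ⟨β, hβ, h4⟩ := low_le h k hk ρ hρ0.le y I
  refine ⟨β, hβ, ?_⟩
  have h5 : cs (crb b κ) (1 / 2 ^ b) h ≤ Psi h ρ y := by
    rw [hρ]
    exact cs_le_Psi (by positivity) h hy2
  have h6 : tc b h y β = coeff β (shA h (fun _ => ρ) y) := by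
    rw [hρ]
    rfl
  rw [h6]
  have h7 : 0 ≤ |coeff β (shA h (fun _ => ρ) y)| := abs_nonneg _
  rw [← hNb] at h4
  calc cs (crb b κ) (1 / 2 ^ b) h ≤ 2 * (Nb * |coeff β (shA h (fun _ => ρ) y)|) := by linarith
    _ = (2 * Nb) * |coeff β (shA h (fun _ => ρ) y)| := by ring
    _ ≤ (1 + 2 * Nb + Real.log (2 * K)) * |coeff β (shA h (fun _ => ρ) y)| :=
      mul_le_mul_of_nonneg_right (by linarith) h7

end Pool.KJ
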